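import Pool.Agent.H23.DF.TargetsA
import Pool.Agent.H31.SX.TargetsD
import Pool.Agent.H56.DW.BQ

/-!
# (QBQ) the dual sums, mean squares over a family of boxes and cosets, friable conductors
-/

set_option autoImplicit false
set_option linter.unusedSectionVars false
set_option linter.unusedVariables false

open NumberField NumberField.InfinitePlace NumberField.Units
  NumberField.Units.dirichletUnitTheorem MeasureTheory Set Filter Complex
open scoped nonZeroDivisors ENNReal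

namespace Pool.Agent.H94.DF.QBQ

open Pool.Agent.H23.DF
open Pool.Agent.H23.DM (lg5 h5 Fq Mz cm SQ MP OQ de SpE SpG FP PhZ PY LoC Lab QB Clq)
open Pool.Agent.H25.HK Pool.Agent.H23.LB Pool.Agent.H23.LC
open Pool.Agent.H28.RC (Rep ft idl)
open Pool.Agent.H29.DW (dg Rl lf wv Pos Wg cpar Ci om zs rv Wt PrG)
open Pool.Agent.H29.TC (Gn LC cq dvs AC MC)
open Pool.Agent.H31.SW (EE itg FF HD DB DS dif Pf GG G2 DD PP pF dK pz ps Tf WG bz)
open Pool.Agent.H31.SX (ND RK Gcd LK)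
open Pool.Agent.H27.TM (Cls Spc Sp1 InT)

private lemma norm_EE (z : ℂ) : ‖EE z‖ = 1 := by
  unfold EE
  rw [← Complex.ofReal_neg]
  exact Complex.norm_exp_ofReal_mul_I _

private lemma pz_zero (r : Bool) {x : ℂ} (h : 1 / 10000 ≤ ‖x‖) : pz r x = 0 := by
  unfold pz
  have : bz x = 0 := by
    apply bz.zero_of_le_dist
    rw [dist_zero_right]
    exact h
  rw [this]
  simp

private lemma pz_norm (r : Bool) (x : ℂ) : ‖pz r x‖ ≤ 1 := by
  unfold pz
  rw [Complex.norm_real, Real.norm_of_nonneg bz.nonneg]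
  exact bz.le_one

private lemma pz_meas (r : Bool) : Measurable (pz r) := by
  unfold pz
  exact Complex.measurable_ofReal.comp bz.continuous.measurable

private lemma tf {K : Type} [Field K] [NumberField K] (c : InfinitePlace K → ℂ) :
    Tf (fun v => GG (pz (rv v)) (c v)) := by
  refine ⟨fun v => ?_, fun v w => ?_, fun v w hw => ?_⟩
  · unfold GG EE
    have h1 : Measurable (fun w : ℂ => pz (rv v) (w - 1)) :=
      (pz_meas (rv v)).comp (measurable_id.sub_const 1)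
    have h2 : Measurable (fun w : ℂ => ((c v * Complex.log w).re : ℝ)) :=
      Complex.measurable_re.comp (Complex.measurable_log.const_mul (c v))
    exact (Complex.measurable_exp.comp
      ((Complex.measurable_ofReal.comp h2).neg.mul_const I)).mul h1
  · unfold GG
    rw [norm_mul, norm_EE, one_mul]
    exact pz_norm _ _
  · unfold GG
    rw [pz_zero (rv v) (by linarith), mul_zero]

section

variable {K : Type} [Field K] [NumberField K]

private lemma Nf_mul (l k : Ideal (𝓞 K)) : Nf K (l * k) = Nf K l * Nf K k := by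
  unfold Nf
  rw [map_mul]
  push_cast
  ring

private lemma Gn_mono {f g : Ideal (𝓞 K)} (hfg : f ≤ g) {M : FI K} {x₀ : K} (h : Gn f M x₀) :
    Gn g M x₀ := by
  refine ⟨h.mem, h.ne, fun y hy => ?_, fun a j hj => h.iff a j (hfg.trans hj)⟩
  obtain ⟨a, ha, h1⟩ := h.gen y hy
  refine ⟨a, ha, ?_⟩
  have h2 : (f : FI K) * M ≤ (g : FI K) * M := by
    gcongr
  exact h2 h1

/-- the conjugate character -/
private noncomputable def cj {k : Ideal (𝓞 K)} (η : 𝓞 K ⧸ k → ℂ) : 𝓞 K ⧸ k → ℂ :=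
  fun x => (starRingEnd ℂ) (η x)

private lemma cj_cj {k : Ideal (𝓞 K)} (η : 𝓞 K ⧸ k → ℂ) : cj (cj η) = η := by
  funext x
  exact Complex.conj_conj _

private lemma cj_iff {k : Ideal (𝓞 K)} (η η₀ : 𝓞 K ⧸ k → ℂ) : cj η = η₀ ↔ η = cj η₀ := by
  constructor
  · rintro rfl
    exact (cj_cj η).symm
  · rintro rfl
    exact cj_cj η₀

private lemma LC_cj {k : Ideal (𝓞 K)} {η : 𝓞 K ⧸ k → ℂ} (h : LC k η) : LC k (cj η) := by
  refine ⟨⟨?_, fun x y => ?_, fun x hx => ?_, fun x hx => ?_⟩, fun w hw => ?_⟩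
  · unfold cj
    rw [h.mc.one, map_one]
  · unfold cj
    rw [h.mc.mul, map_mul]
  · unfold cj
    rw [RCLike.norm_conj]
    exact h.mc.unit x hx
  · unfold cj
    rw [h.mc.zero x hx, map_zero]
  · obtain ⟨r, h1, h2⟩ := h.prim w hw
    refine ⟨r, h1, fun h3 => h2 ?_⟩
    unfold cj at h3
    have h4 := congrArg (starRingEnd ℂ) h3
    rwa [Complex.conj_conj, map_one] at h4

private lemma cq_cj {k : Ideal (𝓞 K)} (η : 𝓞 K ⧸ k → ℂ) (M : FI K) (x₀ x : K) :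
    (starRingEnd ℂ) (cq k η M x₀ x) = cq k (cj η) M x₀ x := by
  unfold cq
  split_ifs
  · rfl
  · exact map_zero _

private lemma cls (hSH : Pool.Agent.H31.SX.X_SH) (hGX : Pool.Agent.H29.TC.T_GX)
    {l k : Ideal (𝓞 K)} (h : LK l k) {η : HG K (l * k) → 𝓞 K ⧸ k → ℂ} (hη : LoC K l k η)
    (D : Sys K (l * k)) (χ : HG K (l * k)) (hχ : PrG k χ) (i : D.ι) (y₀ : K)
    (hy₀ : Gn (l * k) (du K (((l * k : Ideal (𝓞 K)) : FI K) * D.M i)) y₀) :
    ∃ c' : K → ℂ,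
      (∀ y ∈ du K (((l * k : Ideal (𝓞 K)) : FI K) * D.M i),
        ∀ t ∈ (l : FI K) * du K (((l * k : Ideal (𝓞 K)) : FI K) * D.M i),
          c' (y + t) = c' y) ∧
      (∀ y ∈ du K (((l * k : Ideal (𝓞 K)) : FI K) * D.M i),
        ‖c' y‖ ≤ Nf K l * Real.sqrt (Nf K k)) ∧
      ∀ y ∈ du K (((l * k : Ideal (𝓞 K)) : FI K) * D.M i), ch D χ i y = c' y *
        cq k (cj (η χ)) (du K (((l * k : Ideal (𝓞 K)) : FI K) * D.M i)) y₀ y := by
  have hlk : l * k ≠ ⊥ := mul_ne_zero h.l_ne h.k_ne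
  have hM : D.M i ≠ 0 := D.reps.1 i
  obtain ⟨hL, hc⟩ := hη χ hχ
  obtain ⟨x₀, hx₀⟩ := hGX K (l * k) (D.M i) hlk hM
  obtain ⟨c, hc1, hc2, hc3⟩ := hc (D.M i) x₀ hM hx₀
  obtain ⟨c', h1, h2, h3⟩ := hSH K l k h (η χ) hL (D.M i) x₀ y₀ c (D.X i) hM hx₀ hy₀ hc1 hc2
    (D.rep i)
  refine ⟨c', h2, h1, fun y hy => ?_⟩
  rw [← cq_cj, ← h3 y hy]
  unfold ch ft
  refine Finset.sum_congr rfl fun r hr => ?_
  rw [hc3 r ((D.rep i).1 r hr)]

private lemma Ci_le' {n : ℕ} (hn : Module.finrank ℚ K = n) (k : InfinitePlace K → ℤ)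
    (ν : InfinitePlace K → ℝ) (t : ℝ)
    (hk : ∀ v : InfinitePlace K, v.IsReal → k v = 0 ∨ k v = 1) :
    Ci k ν t ≤ 3 ^ n * PP (fun v => 1 + ‖cpar k ν t v‖) := by
  unfold PP Ci
  rw [← Pool.Agent.H29.DW.sum_mult hn, ← Finset.prod_pow_eq_pow_sum, ← Finset.prod_mul_distrib]
  refine Finset.prod_le_prod (fun v _ => by positivity) fun v _ => ?_
  rw [← mul_pow]
  refine pow_le_pow_left₀ (by positivity) ?_ _
  have h1 := Pool.Agent.H29.DW.le_norm_cpar k ν t hk v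
  have h2 : max 1 ‖cpar k ν t v‖ ≤ 1 + ‖cpar k ν t v‖ :=
    max_le (by linarith [norm_nonneg (cpar k ν t v)]) (by linarith)
  linarith

private lemma PP_cls {n : ℕ} (hn : Module.finrank ℚ K = n) {τ : InfinitePlace K → ℝ}
    {c : InfinitePlace K → ℂ} (h : Cls τ c) : PP (fun v => 1 + ‖c v‖) ≤ 2 ^ n * PP τ := by
  unfold PP
  rw [← Pool.Agent.H29.DW.sum_mult hn, ← Finset.prod_pow_eq_pow_sum, ← Finset.prod_mul_distrib]
  refine Finset.prod_le_prod (fun v _ => by positivity) fun v _ => ?_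
  rw [← mul_pow]
  exact pow_le_pow_left₀ (by positivity) (h.upp v) _

private lemma one_le_PP {τ : InfinitePlace K → ℝ} (h : ∀ v, 1 ≤ τ v) : 1 ≤ PP τ := by
  unfold PP
  calc (1 : ℝ) = ∏ v : InfinitePlace K, (1 : ℝ) := by simp
    _ ≤ ∏ v : InfinitePlace K, τ v ^ v.mult :=
      Finset.prod_le_prod (fun v _ => zero_le_one) fun v _ => one_le_pow₀ (h v)

private lemma Cls_neg {τ : InfinitePlace K → ℝ} {c : InfinitePlace K → ℂ} (h : Cls τ c) :
    Cls τ (fun v => -c v) := by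
  refine ⟨h.one, fun v => ?_, fun v => ?_, fun v hv => ?_⟩
  · rw [norm_neg]
    exact h.low v
  · rw [norm_neg]
    exact h.upp v
  · rw [Complex.neg_im, h.real v hv, neg_zero]

private lemma SpE_neg {ι : Type} {k : Ideal (𝓞 K)} {J : Finset ι} {η : ι → 𝓞 K ⧸ k → ℂ}
    {c : ι → InfinitePlace K → ℂ} {D : ℝ} (h : SpE J η c D) :
    SpE J (fun j => cj (η j)) (fun j v => -c j v) D := by
  classical
  intro η₀ c₀
  refine le_trans (le_of_eq ?_) (h (cj η₀) (fun v => -c₀ v))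
  congr 2
  refine Finset.filter_congr fun j _ => ?_
  refine and_congr (cj_iff _ _) (forall_congr' fun v => ?_)
  rw [show -c j v - c₀ v = -(c j v - -c₀ v) by ring, norm_neg]

private lemma Lab_neg {ι : Type} {k κ : Ideal (𝓞 K)} {J : Finset ι} {bl : ι → ℕ}
    {η : ι → 𝓞 K ⧸ k → ℂ} {c : ι → InfinitePlace K → ℂ} {H : InfinitePlace K → ℝ}
    (h : Lab κ J bl η c H) : Lab κ J bl (fun j => cj (η j)) (fun j v => -c j v) H := by
  intro i hi j hj hij
  obtain ⟨h1, h2⟩ := h i hi j hj hij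
  refine ⟨fun t ht => ?_, fun v => ?_⟩
  · exact congrArg (starRingEnd ℂ) (h1 t ht)
  · rw [show -c i v - -c j v = -(c i v - c j v) by ring, norm_neg]
    exact h2 v

private lemma QB_nonneg (k κ : Ideal (𝓞 K)) {τ H : InfinitePlace K → ℝ}
    (h : ∀ v, 1 ≤ H v ∧ 1 ≤ τ v) {R : ℝ} (hR : 0 ≤ R) : 0 ≤ QB k κ τ H R := by
  have h1 : 0 ≤ PP H := by
    unfold PP
    exact Finset.prod_nonneg fun v _ => pow_nonneg (by linarith [(h v).1]) _
  have h2 : 0 ≤ PP (fun v => max (τ v) (H v ^ 3)) := by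
    unfold PP
    exact Finset.prod_nonneg fun v _ => pow_nonneg (le_max_of_le_left (by linarith [(h v).2])) _
  have h3 : 0 ≤ Nf K κ := by
    unfold Nf
    positivity
  have h4 : 0 ≤ Nf K k := by
    unfold Nf
    positivity
  unfold QB
  positivity

end

private lemma Wt_mono {κ X X' B : ℝ} {v : ℝ → ℂ} (hκ : 0 < κ) (hX : 0 ≤ X) (hXX : X ≤ X')
    (hB : 0 ≤ B) (h : Wt κ X B v) : Wt κ X' B v := by
  intro σ hσ
  obtain ⟨g, hg, hgb, hv⟩ := h σ hσ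
  refine ⟨g, hg, fun y => (hgb y).trans ?_, hv⟩
  have hσ0 : 0 ≤ σ := by
    rcases hσ with rfl | rfl
    · exact hκ.le
    · norm_num
  have := Real.rpow_le_rpow hX hXX hσ0
  gcongr

/-- the numerical part -/
private lemma num {ι : Type} (S : Finset ι) (T : ι → ℝ) {c₀ C B N s hR D dk R Z P B₁ : ℝ}
    (hc₀ : 0 < c₀) (hC : 0 ≤ C) (hB : 0 ≤ B) (hhR : 0 ≤ hR) (hN : 1 ≤ N) (hs : 0 < s)
    (hD : 1 ≤ D) (hdk : 1 ≤ dk) (hR1 : 1 ≤ R) (hZ : Z = D * dk * (N * R)) (hP : 0 ≤ P)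
    (h : ∑ q ∈ S, (c₀ * s * T q) ^ 2 ≤ C * ((B * (N * s) * hR) ^ 2 * Z ^ B₁ * P)) :
    ∑ q ∈ S, T q ^ 2 ≤ C / c₀ ^ 2 * ((B * hR) ^ 2 * Z ^ (B₁ + 2) * P) := by
  have hDd : 1 ≤ D * dk := one_le_mul_of_one_le_of_one_le hD hdk
  have hNR : N ≤ N * R := le_mul_of_one_le_right (by linarith) hR1
  have hZN : N ≤ Z := by
    rw [hZ]
    calc N ≤ N * R := hNR
      _ = 1 * (N * R) := (one_mul _).symm
      _ ≤ D * dk * (N * R) := mul_le_mul_of_nonneg_right hDd (by linarith)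
  have hZ0 : 0 < Z := by linarith
  have h1 : Z ^ (B₁ + 2) = Z ^ B₁ * Z ^ 2 := by
    rw [Real.rpow_add hZ0]
    congr 1
    exact_mod_cast Real.rpow_natCast Z 2
  have h2 : N ^ 2 ≤ Z ^ 2 := pow_le_pow_left₀ (by linarith) hZN 2
  have h3 : 0 ≤ Z ^ B₁ := Real.rpow_nonneg hZ0.le _
  have h4 : ∑ q ∈ S, (c₀ * s * T q) ^ 2 = s ^ 2 * (c₀ ^ 2 * ∑ q ∈ S, T q ^ 2) := by
    rw [Finset.mul_sum, Finset.mul_sum]
    exact Finset.sum_congr rfl fun q _ => by ring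
  have h4' : C * ((B * (N * s) * hR) ^ 2 * Z ^ B₁ * P) =
      s ^ 2 * (C * ((B * N * hR) ^ 2 * Z ^ B₁ * P)) := by ring
  rw [h4, h4'] at h
  have hs12 : 0 < s ^ 2 := by positivity
  have h := le_of_mul_le_mul_left h hs12
  have hc : 0 < c₀ ^ 2 := by positivity
  rw [h1, div_mul_eq_mul_div, le_div_iff₀ hc, mul_comm]
  refine h.trans (mul_le_mul_of_nonneg_left ?_ hC)
  have h5 : (B * N * hR) ^ 2 * Z ^ B₁ * P = ((B * hR) ^ 2 * Z ^ B₁ * P) * N ^ 2 := by ring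
  have h6 : (B * hR) ^ 2 * (Z ^ B₁ * Z ^ 2) * P = ((B * hR) ^ 2 * Z ^ B₁ * P) * Z ^ 2 := by
    ring
  rw [h5, h6]
  exact mul_le_mul_of_nonneg_left h2 (by positivity)

open scoped Classical in
/-- (QBQ) -/
theorem pf_QBQ (hUQ : Pool.Agent.H31.SW.W_UQ) (hWL : Pool.Agent.H31.SW.W_WL) (hQI : F_QI)
    (hRR : Pool.Agent.H23.LB.T_RR) (_hDC : U_DC) (hSH : Pool.Agent.H31.SX.X_SH)
    (hGX : Pool.Agent.H29.TC.T_GX) : F_QBQ := by
  intro n hn
  obtain ⟨B₁, hB₁, hQI'⟩ := hQI n hn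
  obtain ⟨c₀, hc₀, hc⟩ := hWL n hn
  refine ⟨B₁ + 2, by linarith, fun ε ε' hε hε1 hκ hκε => ?_⟩
  obtain ⟨C, hC0, hC⟩ := hQI' ε ε' hε hε1 hκ hκε
  refine ⟨C / c₀ ^ 2, by positivity,
    fun K _ _ hK l s k κ Yf hSK hKq η hη Y H τ S bl B D v hHτ hPr hCls hLab hSpE hD hB hWt => ?_⟩
  have hLK : LK l (s * k) := hSK.lk
  have hτ : ∀ v, 1 ≤ τ v := fun v => (hHτ v).2
  have hlk : l * (s * k) ≠ ⊥ := mul_ne_zero hLK.l_ne hLK.k_ne
  have hreps : Reps K (fun i => du K (((l * (s * k) : Ideal (𝓞 K)) : FI K) * Y.M i)) :=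
    (hRR K Y.ι _ ((hRR K Y.ι Y.M Y.reps).1 _ hlk)).2.1
  have hd1 : 1 ≤ dK K := Pool.Agent.H56.DW.one_le_disc (K := K)
  have hl1 := Pool.Agent.H56.DW.one_le_Nf hLK.l_ne
  have hk1 := Pool.Agent.H56.DW.one_le_Nf hLK.k_ne
  have hk0' : k ≠ ⊥ := right_ne_zero_of_mul hLK.k_ne
  have hrne : k.radical ≠ ⊥ := fun h => hk0' (le_bot_iff.1 (h ▸ Ideal.le_radical))
  have hr0 := Pool.Agent.H56.DW.one_le_Nf hrne
  have hr1 : 1 ≤ Nf K k.radical * Yf := one_le_mul_of_one_le_of_one_le hr0 hSK.one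
  have hf1 := Pool.Agent.H56.DW.one_le_Nf hlk
  have hP1 := one_le_PP hτ
  have h61 : (1 : ℝ) ≤ 6 ^ n := one_le_pow₀ (by norm_num)
  have h2lk : Ideal.span {(2 : 𝓞 K)} * l * (s * k) ≠ ⊥ := by
    refine mul_ne_zero (mul_ne_zero ?_ hLK.l_ne) hLK.k_ne
    intro h
    have h1 := Ideal.span_singleton_eq_bot.1 h
    exact two_ne_zero h1
  have h2le : Ideal.span {(2 : 𝓞 K)} * l * (s * k) ≤ l * (s * k) := by
    rw [mul_assoc]
    exact Ideal.mul_le_right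
  obtain ⟨A, hA⟩ : ∃ A : ℝ, A = 6 ^ n * (dK K * Nf K l * (Nf K (s * k) * PP τ)) := ⟨_, rfl⟩
  have hA1 : 1 ≤ A := by
    rw [hA]
    exact one_le_mul_of_one_le_of_one_le h61
      (one_le_mul_of_one_le_of_one_le (one_le_mul_of_one_le_of_one_le hd1 hl1)
        (one_le_mul_of_one_le_of_one_le hk1 hP1))
  have hWt' : ∀ q ∈ S, Wt ε' (Real.sqrt A) B (v q) := by
    intro q hq
    refine Wt_mono hκ (Real.sqrt_nonneg _) (Real.sqrt_le_sqrt ?_) hB (hWt q hq)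
    have h1 := Ci_le' hK q.1.k q.1.ν q.2 q.1.real_k
    have h2 := PP_cls hK (hCls q hq)
    have h3 : Ci q.1.k q.1.ν q.2 ≤ 6 ^ n * PP τ := by
      calc Ci q.1.k q.1.ν q.2 ≤ 3 ^ n * PP (fun v => 1 + ‖cpar q.1.k q.1.ν q.2 v‖) := h1
        _ ≤ 3 ^ n * (2 ^ n * PP τ) := mul_le_mul_of_nonneg_left h2 (by positivity)
        _ = 6 ^ n * PP τ := by
          rw [← mul_assoc, ← mul_pow]
          norm_num
    rw [hA]
    have h4 : |(discr K : ℝ)| = dK K := rfl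
    rw [h4]
    calc dK K * Nf K (l * (s * k)) * Ci q.1.k q.1.ν q.2 ≤ dK K * Nf K (l * (s * k)) * (6 ^ n * PP τ) :=
          mul_le_mul_of_nonneg_left h3 (by positivity)
      _ = 6 ^ n * (dK K * Nf K l * (Nf K (s * k) * PP τ)) := by
        rw [Nf_mul l (s * k)]
        ring
  have hYne : ∀ i, du K (((l * (s * k) : Ideal (𝓞 K)) : FI K) * Y.M i) ≠ 0 := by
    intro i
    unfold du
    exact FractionalIdeal.dual_ne_zero ℤ ℚ
      (mul_ne_zero (FractionalIdeal.coeIdeal_ne_zero.mpr hlk) (Y.reps.1 i))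
  choose y₀ hy₀ using fun i => hGX K (Ideal.span {(2 : 𝓞 K)} * l * (s * k)) _ h2lk (hYne i)
  have hcls : ∀ q : HG K (l * (s * k)) × ℝ, ∀ i : Y.ι, ∃ c' : K → ℂ, q ∈ S →
      (∀ y ∈ du K (((l * (s * k) : Ideal (𝓞 K)) : FI K) * Y.M i),
        ∀ t ∈ (l : FI K) * du K (((l * (s * k) : Ideal (𝓞 K)) : FI K) * Y.M i),
          c' (y + t) = c' y) ∧
      (∀ y ∈ du K (((l * (s * k) : Ideal (𝓞 K)) : FI K) * Y.M i),
        ‖c' y‖ ≤ Nf K l * Real.sqrt (Nf K (s * k))) ∧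
      ∀ y ∈ du K (((l * (s * k) : Ideal (𝓞 K)) : FI K) * Y.M i), ch Y q.1 i y = c' y *
        cq (s * k) (cj (η q.1)) (du K (((l * (s * k) : Ideal (𝓞 K)) : FI K) * Y.M i)) (y₀ i) y := by
    intro q i
    by_cases hq : q ∈ S
    · obtain ⟨c', h⟩ := cls hSH hGX hLK hη Y q.1 (hPr q hq) i (y₀ i) (Gn_mono h2le (hy₀ i))
      exact ⟨c', fun _ => h⟩
    · exact ⟨fun _ => 0, fun h => absurd h hq⟩
  choose cc hcc using hcls
  have key := hC K hK Y.ι (fun i => du K (((l * (s * k) : Ideal (𝓞 K)) : FI K) * Y.M i)) hreps l s k κ Yf y₀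
    H τ (HG K (l * (s * k)) × ℝ) S bl (fun q => cj (η q.1)) (fun q w => -Pool.Agent.H27.TM.cq q w)
    (Real.sqrt A) B D (Nf K l * Real.sqrt (Nf K (s * k))) v cc false hSK hy₀ hKq hHτ
    (fun q hq => LC_cj (hη q.1 (hPr q hq)).1)
    (fun q hq => Cls_neg (hCls q hq)) (Lab_neg hLab) (SpE_neg hSpE) hD (Real.one_le_sqrt.2 hA1)
    (by
      rw [Real.sq_sqrt (by linarith), hA]) hB hWt' (by positivity)
    (fun q hq i x hx t ht => (hcc q i hq).1 x hx t ht)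
    (fun q hq i x hx => (hcc q i hq).2.1 x hx)
  have hI : ∀ q ∈ S, ENNReal.ofReal (c₀ * Real.sqrt (Nf K (s * k)) *
      ‖∑' J : NZI K, cd Y q.1 J.1 * v q (Ideal.absNorm J.1) *
      (Ideal.absNorm J.1 : ℂ) ^ (q.2 * I : ℂ)‖) ≤
      ∑ i, ∫⁻ u in Fd K ×ˢ (univ : Set ℝ) ×ˢ An K,
        ENNReal.ofReal ‖∑' x : {x : K // x ∈ du K (((l * (s * k) : Ideal (𝓞 K)) : FI K) * Y.M i) ∧
            x ≠ 0},
          (cc q i x * cq (s * k) (cj (η q.1)) (du K (((l * (s * k) : Ideal (𝓞 K)) : FI K) * Y.M i))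
            (y₀ i) x) *
          v q (Ideal.absNorm (idl K (du K (((l * (s * k) : Ideal (𝓞 K)) : FI K) * Y.M i)) x)) *
            pF (fun w => GG (pz (rv w)) (-Pool.Agent.H27.TM.cq q w))
              (yM K (du K (((l * (s * k) : Ideal (𝓞 K)) : FI K) * Y.M i)) u.2.1 (zs false u.1))
                (om false u.2.2) x‖ := by
    intro q hq
    have h5 : ∀ (i : Y.ι)
        (x : {x : K // x ∈ du K (((l * (s * k) : Ideal (𝓞 K)) : FI K) * Y.M i) ∧ x ≠ 0}),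
        cc q i x * cq (s * k) (cj (η q.1)) (du K (((l * (s * k) : Ideal (𝓞 K)) : FI K) * Y.M i)) (y₀ i) x =
          ch Y q.1 i x := fun i x => ((hcc q i hq).2.2 x x.2.1).symm
    simp only [h5]
    have ecq : (fun w => -Pool.Agent.H27.TM.cq q w) = cpar (-q.1.k) (-q.1.ν) (-q.2) := by
      rw [Pool.Agent.H29.DW.cpar_neg]
      rfl
    have hU := hUQ K _ hlk Y q.1 (fun w => GG (pz (rv w)) (-Pool.Agent.H27.TM.cq q w)) (-q.2)
      (v q) (tf (fun w => -Pool.Agent.H27.TM.cq q w)) (Pool.Agent.H56.DW.Wt_bound (hWt q hq))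
    have eT : ∀ J : NZI K, (Ideal.absNorm J.1 : ℂ) ^ (-(((-q.2 : ℝ) : ℂ) * I : ℂ)) =
        (Ideal.absNorm J.1 : ℂ) ^ (q.2 * I : ℂ) := by
      intro J
      congr 1
      push_cast
      ring
    simp only [eT] at hU
    have hW := hc K hK (-q.1.k) (-q.1.ν) (-q.2) (by
      have := q.1.norm_zero
      simp only [Pi.neg_apply, mul_neg, Finset.sum_neg_distrib, this, neg_zero])
    rw [← ecq] at hW
    have hS : ENNReal.ofReal ‖(torsionOrder K : ℂ) *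
        WG K (fun w => GG (pz (rv w)) (-Pool.Agent.H27.TM.cq q w)) (-q.1.k) (-q.1.ν) (-q.2) *
          ((Real.sqrt (Nf K (l * (s * k))) : ℝ) : ℂ) *
          ∑' J : NZI K, cd Y q.1 J.1 * v q (Ideal.absNorm J.1) *
            (Ideal.absNorm J.1 : ℂ) ^ (q.2 * I : ℂ)‖ ≤
        ∑ i, ∫⁻ u in Fd K ×ˢ (univ : Set ℝ) ×ˢ An K,
          ENNReal.ofReal ‖∑' x : {x : K // x ∈ du K (((l * (s * k) : Ideal (𝓞 K)) : FI K) * Y.M i) ∧
              x ≠ 0},
            ch Y q.1 i x *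
              v q (Ideal.absNorm (idl K (du K (((l * (s * k) : Ideal (𝓞 K)) : FI K) * Y.M i)) x)) *
              pF (fun w => GG (pz (rv w)) (-Pool.Agent.H27.TM.cq q w))
                (yM K (du K (((l * (s * k) : Ideal (𝓞 K)) : FI K) * Y.M i)) u.2.1 (zs false u.1))
                  (om false u.2.2) x‖ := by
      rw [← hU]
      refine Pool.Agent.H56.DW.sum_int_le _ _ _ _ fun i a => ?_
      have e : (((-q.2 : ℝ) : ℂ) * (a.2.1 : ℂ)) = (((-q.2) * a.2.1 : ℝ) : ℂ) := by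
        push_cast
        rfl
      rw [norm_mul, norm_mul, norm_mul (ek _ _), Pool.Agent.H56.DW.ec_norm,
        Pool.Agent.H56.DW.ek_norm, e, Complex.norm_exp_ofReal_mul_I, one_mul, one_mul, one_mul]
    refine (ENNReal.ofReal_le_ofReal ?_).trans hS
    have hsq1 : Real.sqrt (Nf K (s * k)) ≤ Real.sqrt (Nf K (l * (s * k))) := by
      refine Real.sqrt_le_sqrt ?_
      rw [Nf_mul l (s * k)]
      exact le_mul_of_one_le_left (by linarith) hl1
    have hto : (1 : ℝ) ≤ (torsionOrder K : ℝ) := Pool.Agent.H56.DW.one_le_tor (K := K)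
    rw [norm_mul, norm_mul, norm_mul, Complex.norm_natCast, Complex.norm_real,
      Real.norm_of_nonneg (Real.sqrt_nonneg _)]
    refine mul_le_mul_of_nonneg_right ?_ (norm_nonneg _)
    calc c₀ * Real.sqrt (Nf K (s * k)) = 1 * c₀ * Real.sqrt (Nf K (s * k)) := by ring
      _ ≤ _ := by
        refine mul_le_mul ?_ hsq1 (Real.sqrt_nonneg _) (by positivity)
        exact mul_le_mul hto hW hc₀.le (by linarith)
  have hk0 : 0 ≤ Nf K (s * k) * PP τ := by positivity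
  have h2 : ∑ q ∈ S, ENNReal.ofReal (c₀ * Real.sqrt (Nf K (s * k)) * ‖∑' J : NZI K, cd Y q.1 J.1 *
      v q (Ideal.absNorm J.1) * (Ideal.absNorm J.1 : ℂ) ^ (q.2 * I : ℂ)‖) ^ 2 ≤
      ENNReal.ofReal (C * ((B * (Nf K l * Real.sqrt (Nf K (s * k))) *
        (classNumber K * regulator K)) ^ 2 *
        (D * dK K * (Nf K l * Nf K k.radical * Yf)) ^ B₁ *
          ((Nf K (s * k) * PP τ) ^ ε * QB (s * k) κ τ H ((S.image bl).card : ℝ)))) := by
    refine le_trans (Finset.sum_le_sum fun q hq => ?_) (key.trans (le_of_eq (by ring_nf)))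
    exact pow_le_pow_left' (hI q hq) 2
  have hHR : 0 ≤ (classNumber K : ℝ) * regulator K :=
    mul_nonneg (Nat.cast_nonneg _) (regulator_pos K).le
  have hPP : 0 ≤ (Nf K (s * k) * PP τ) ^ ε * QB (s * k) κ τ H ((S.image bl).card : ℝ) :=
    mul_nonneg (Real.rpow_nonneg hk0 _) (QB_nonneg (s * k) κ hHτ (Nat.cast_nonneg _))
  have hYf : 0 ≤ Yf := by linarith [hSK.one]
  have hZ0 : 0 ≤ D * dK K * (Nf K l * Nf K k.radical * Yf) := by positivity
  have hZB : 0 ≤ (D * dK K * (Nf K l * Nf K k.radical * Yf)) ^ B₁ := Real.rpow_nonneg hZ0 _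
  have h3 : ∑ q ∈ S, (c₀ * Real.sqrt (Nf K (s * k)) * ‖∑' J : NZI K, cd Y q.1 J.1 *
      v q (Ideal.absNorm J.1) * (Ideal.absNorm J.1 : ℂ) ^ (q.2 * I : ℂ)‖) ^ 2 ≤
      C * ((B * (Nf K l * Real.sqrt (Nf K (s * k))) * (classNumber K * regulator K)) ^ 2 *
        (D * dK K * (Nf K l * Nf K k.radical * Yf)) ^ B₁ *
          ((Nf K (s * k) * PP τ) ^ ε * QB (s * k) κ τ H ((S.image bl).card : ℝ))) := by
    rw [← ENNReal.ofReal_le_ofReal_iff (by positivity),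
      ENNReal.ofReal_sum_of_nonneg fun q _ => by positivity]
    refine le_trans (le_of_eq (Finset.sum_congr rfl fun q _ => ?_)) h2
    rw [ENNReal.ofReal_pow (by positivity)]
  refine le_trans (num S _ hc₀ hC0 hB hHR hl1 (Real.sqrt_pos.2 (by linarith)) hD hd1 hr1
    (by ring) hPP h3) (le_of_eq (by ring))

end Pool.Agent.H94.DF.QBQ
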