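import Pool.Agent.H89.DF.TargetsK
import Pool.Agent.H19.FM.EXP

/-!
# The expansion of the twisted sums at arbitrary points (board `dfx_modules`, row KEX)
-/

set_option autoImplicit false

open MeasureTheory Set Filter
open scoped Real Matrix MatrixGroups

namespace Pool.Agent.H94.DF

open Pool.Agent.H31.CN Pool.Agent.H89.FM Pool.Agent.H89.FC Pool.Agent.H89.DF Pool.Agent.H19.FM

open Classical in
theorem pf_EXPr (hFLS : T_FLS) (hCRT : T_CRT) (hRFM : T_RFM) (hHEC : T_HECm) (hIND : T_IND)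
    (hGCD : T_GCD) : T_EXPr := by
  intro κ hκ _
  obtain ⟨C, hC0, hC⟩ := hGCD κ hκ
  refine ⟨C, hC0, fun μ s N α hs _ hα => ⟨bt s N α, fun m hm => norm_bt_le hκ hC hs hα hm,
    fun Q x y hy => ?_⟩⟩
  -- the first form
  have e1 : ∀ n ∈ Sq N, α n * ∑ L ∈ (Ls n).filter (fun L => Dv n L Q),
      Em μ s n L x y = ∑ m ∈ n.divisors, α (m * (n / m)) / ((m * (n / m) : ℕ) : ℂ) *
        ∑ L' ∈ Ls m, (Rn m L' Q : ℂ) * (sg s (n / m) * Em μ s m L' x y) := by
    intro n hn
    unfold Sq at hn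
    rw [Finset.mem_filter, Finset.mem_Icc] at hn
    have hn0 : (n : ℂ) ≠ 0 := by
      have : n ≠ 0 := by omega
      exact_mod_cast this
    have h1 : ∑ L ∈ (Ls n).filter (fun L => Dv n L Q), Em μ s n L x y =
        (1 / (n : ℂ)) * ∑ m ∈ n.divisors, ∑ L ∈ Ls n, (Rn m L Q : ℂ) *
          Em μ s n L x y := by
      rw [Finset.sum_comm, Finset.mul_sum, Finset.sum_filter]
      refine Finset.sum_congr rfl fun L _ => ?_
      rw [← Finset.sum_mul, ← mul_assoc]
      have h2 := hIND n L Q hn.2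
      have h3 : (if Dv n L Q then (1 : ℂ) else 0) =
          (1 / (n : ℂ)) * ∑ m ∈ n.divisors, (Rn m L Q : ℂ) := by
        have h4 := congrArg (fun r : ℝ => (r : ℂ)) h2
        push_cast at h4
        rw [← h4]
        split_ifs <;> simp
      rw [← h3]
      split_ifs <;> simp
    rw [h1, ← mul_assoc, Finset.mul_sum]
    refine Finset.sum_congr rfl fun m hm => ?_
    have h2 : m ∣ n := Nat.dvd_of_mem_divisors hm
    have h3 : m * (n / m) = n := Nat.mul_div_cancel' h2
    have hm1 : 1 ≤ m := Nat.pos_of_dvd_of_pos h2 hn.1.1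
    have hg1 : 1 ≤ n / m := Nat.div_pos (Nat.le_of_dvd hn.1.1 h2) hm1
    have hsq : Squarefree (m * (n / m)) := by rw [h3]; exact hn.2
    have hc : Nat.Coprime m (n / m) := Nat.coprime_of_squarefree_mul hsq
    have h4 := sum_group hFLS hCRT hRFM hm1 hg1 hc Q
      (fun L => Em μ s (m * (n / m)) L x y)
    rw [h3] at h4 ⊢
    rw [h4]
    congr 1
    · ring
    · refine Finset.sum_congr rfl fun L' hL' => ?_
      have h5 := hHEC μ m (n / m) L' x y s hsq hL' hy
      rw [h3] at h5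
      rw [h5]
      rfl
  unfold Bz
  rw [Finset.sum_congr rfl e1]
  have e2 := sum_factor N (fun m g => α (m * g) / ((m * g : ℕ) : ℂ) *
    ∑ L' ∈ Ls m, (Rn m L' Q : ℂ) * (sg s g * Em μ s m L' x y))
  refine e2.trans ?_
  refine Finset.sum_congr rfl fun m hm => ?_
  have e3 : ∀ L ∈ Ls m, bt s N α m / m * Em μ s m L x y * (Rn m L Q : ℂ) =
      ∑ g ∈ (Finset.Icc 1 N).filter (fun g => m * g ∈ Sq N), α (m * g) / ((m * g : ℕ) : ℂ) *
        ((Rn m L Q : ℂ) * (sg s g * Em μ s m L x y)) := by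
    intro L _
    unfold bt
    rw [Finset.sum_div, Finset.sum_mul, Finset.sum_mul]
    refine Finset.sum_congr rfl fun g _ => ?_
    push_cast
    rw [← div_div]
    ring
  rw [Finset.sum_congr rfl e3, Finset.sum_comm]
  refine Finset.sum_congr rfl fun g _ => ?_
  rw [Finset.mul_sum]

end Pool.Agent.H94.DF
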