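import Pool.Agent.H89.DF.TargetsK
import Pool.Agent.H89.FM.LS

/-!
# The large sieve inequality for a class of forms modulo `p` (board `dfx_modules`, row KLS)
-/

set_option autoImplicit false

open MeasureTheory Set Filter
open scoped Real Matrix MatrixGroups

namespace Pool.Agent.H94.DF

open Pool.Agent.H31.CN Pool.Agent.H89.FM Pool.Agent.H89.FC Pool.Agent.H89.DF

/-- orthogonality of the additive characters modulo `p` -/
theorem kls_orth (p : ℕ) (hp : 0 < p) (n : ℤ) :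
    ∑ a ∈ Finset.range p, Complex.exp (2 * π * (((n : ℝ) * ((a : ℝ) / p) : ℝ) : ℂ) * Complex.I) =
      if (p : ℤ) ∣ n then (p : ℂ) else 0 := by
  have hp0 : (p : ℂ) ≠ 0 := by
    have : p ≠ 0 := by omega
    exact_mod_cast this
  set ζ : ℂ := Complex.exp (2 * π * (((n : ℝ) / p : ℝ) : ℂ) * Complex.I) with hζ
  have h1 : ∀ a : ℕ, Complex.exp (2 * π * (((n : ℝ) * ((a : ℝ) / p) : ℝ) : ℂ) * Complex.I) =
      ζ ^ a := by
    intro a
    rw [hζ, ← Complex.exp_nat_mul]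
    congr 1
    push_cast
    ring
  rw [Finset.sum_congr rfl fun a _ => h1 a]
  have hiff : ζ = 1 ↔ (p : ℤ) ∣ n := by
    rw [hζ, Complex.exp_eq_one_iff]
    constructor
    · rintro ⟨k, hk⟩
      refine ⟨k, ?_⟩
      have h2 : (2 * (π : ℂ) * Complex.I) ≠ 0 := Complex.two_pi_I_ne_zero
      have h3 : (2 * (π : ℂ) * Complex.I) * ((n : ℂ) / p) = (2 * (π : ℂ) * Complex.I) * (k : ℂ) := by
        have h4 : 2 * (π : ℂ) * (((n : ℝ) / p : ℝ) : ℂ) * Complex.I =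
            (2 * (π : ℂ) * Complex.I) * ((n : ℂ) / p) := by
          push_cast
          ring
        rw [h4] at hk
        rw [hk]
        ring
      have h5 := mul_left_cancel₀ h2 h3
      rw [div_eq_iff hp0] at h5
      have h6 : (n : ℂ) = ((p * k : ℤ) : ℂ) := by
        rw [h5]
        push_cast
        ring
      exact_mod_cast h6
    · rintro ⟨k, hk⟩
      refine ⟨k, ?_⟩
      rw [hk]
      push_cast
      field_simp
  split_ifs with h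
  · rw [hiff.2 h]
    simp
  · have h2 : ζ ≠ 1 := fun h3 => h (hiff.1 h3)
    have h3 : ζ ^ p = 1 := by
      rw [hζ, ← Complex.exp_nat_mul, Complex.exp_eq_one_iff]
      refine ⟨n, ?_⟩
      push_cast
      field_simp
    rw [geom_sum_eq h2, h3, sub_self, zero_div]

/-- the shift of the index `(a, b, c)` -/
noncomputable def th (p : ℕ) (t : ℕ × ℕ × ℕ) : ℝ × ℝ × ℝ :=
  ((t.1 : ℝ) / p, (t.2.1 : ℝ) / p, (t.2.2 : ℝ) / p)

/-- the indices of the shifts -/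
def Θ (p : ℕ) : Finset (ℕ × ℕ × ℕ) := Finset.range p ×ˢ (Finset.range p ×ˢ Finset.range p)

open Classical in
/-- the indicator function of a class modulo `p` -/
theorem kls_ind (p : ℕ) (hp : 0 < p) (Q Q₀ : QF) :
    (if Cgr p Q Q₀ then (1 : ℂ) else 0) =
      1 / (p : ℂ) ^ 3 * ∑ t ∈ Θ p, ee Q (th p t) * (starRingEnd ℂ) (ee Q₀ (th p t)) := by
  have hp0 : (p : ℂ) ≠ 0 := by
    have : p ≠ 0 := by omega
    exact_mod_cast this
  set e : ℤ → ℕ → ℂ := fun n a =>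
    Complex.exp (2 * π * (((n : ℝ) * ((a : ℝ) / p) : ℝ) : ℂ) * Complex.I) with he
  have h1 : ∀ t : ℕ × ℕ × ℕ, ee Q (th p t) * (starRingEnd ℂ) (ee Q₀ (th p t)) =
      e (Q.1 - Q₀.1) t.1 * (e (Q.2.1 - Q₀.2.1) t.2.1 * e (Q.2.2 - Q₀.2.2) t.2.2) := by
    intro t
    unfold ee th
    rw [he]
    simp only
    rw [← Complex.exp_conj, ← Complex.exp_add, ← Complex.exp_add, ← Complex.exp_add]
    congr 1
    simp only [map_mul, Complex.conj_I, Complex.conj_ofReal, map_ofNat]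
    push_cast
    ring
  rw [Finset.sum_congr rfl fun t _ => h1 t]
  have h2 : ∑ t ∈ Θ p, e (Q.1 - Q₀.1) t.1 * (e (Q.2.1 - Q₀.2.1) t.2.1 * e (Q.2.2 - Q₀.2.2) t.2.2) =
      (∑ a ∈ Finset.range p, e (Q.1 - Q₀.1) a) * ((∑ a ∈ Finset.range p, e (Q.2.1 - Q₀.2.1) a) *
        ∑ a ∈ Finset.range p, e (Q.2.2 - Q₀.2.2) a) := by
    unfold Θ
    rw [Finset.sum_product, Finset.sum_mul]
    refine Finset.sum_congr rfl fun a _ => ?_
    rw [Finset.sum_product, Finset.sum_mul, Finset.mul_sum]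
    refine Finset.sum_congr rfl fun b _ => ?_
    rw [Finset.mul_sum, Finset.mul_sum]
  rw [h2, kls_orth p hp, kls_orth p hp, kls_orth p hp]
  by_cases hc : Cgr p Q Q₀
  · obtain ⟨a1, a2, a3⟩ := hc
    rw [if_pos ⟨a1, a2, a3⟩, if_pos a1, if_pos a2, if_pos a3]
    field_simp
  · rw [if_neg hc]
    by_cases a1 : (p : ℤ) ∣ Q.1 - Q₀.1
    · by_cases a2 : (p : ℤ) ∣ Q.2.1 - Q₀.2.1
      · by_cases a3 : (p : ℤ) ∣ Q.2.2 - Q₀.2.2
        · exact absurd ⟨a1, a2, a3⟩ hc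
        · rw [if_neg a3]; ring
      · rw [if_neg a2]; ring
    · rw [if_neg a1]; ring

theorem ee_add (Q : QF) (a b : ℝ × ℝ × ℝ) : ee Q (a + b) = ee Q a * ee Q b := by
  unfold ee
  rw [← Complex.exp_add]
  congr 1
  simp only [Prod.fst_add, Prod.snd_add]
  push_cast
  ring

theorem pf_LSr (hOFF : T_OFFr) (hDIA : T_DIAr) (hIDX : T_IDX) (hPN3 : T_PN3) : T_LSr := by
  classical
  intro ε hε
  obtain ⟨d1, hd1, H1⟩ := hOFF ε hε
  obtain ⟨d2, hd2, H2⟩ := hDIA ε hε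
  refine ⟨min (min d1 d2) (1 / 2), by positivity, fun δ hδ hδd => ?_⟩
  have hδ1 : δ ≤ d1 := le_trans hδd (le_trans (min_le_left _ _) (min_le_left _ _))
  have hδ2 : δ ≤ d2 := le_trans hδd (le_trans (min_le_left _ _) (min_le_right _ _))
  have hδ3 : δ ≤ 1 / 2 := le_trans hδd (min_le_right _ _)
  obtain ⟨C1, hC1, G1⟩ := H1 δ hδ hδ1
  obtain ⟨C2, hC2, G2⟩ := H2 δ hδ hδ2
  refine ⟨Real.exp π * (C1 + C2), by positivity, ?_⟩
  intro Y ρ A M P p Q₀ S c hY hρ hρY hA hAY hM hP hp hQ₀ hS hc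
  have hp1 : 0 < p := hp.pos
  have hρ0 : 0 < ρ := by linarith
  obtain ⟨I, c', μ, hI, hc', hexp, hdiag⟩ := hIDX ρ A M c hρ0 hA hM hc
  set W : ℝ := Y ^ (1 - δ) with hW
  have hY0 : 0 < Y := by linarith
  have hWpos : 0 < W := Real.rpow_pos_of_pos hY0 _
  have hW2 : W ^ 2 = Y ^ (2 - 2 * δ) := by
    rw [hW, ← Real.rpow_natCast, ← Real.rpow_mul hY0.le]
    congr 1; push_cast; ring
  set F : Finset (ℤ × ℤ) := I.image (fun x => x.1) with hF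
  set G : ℤ × ℤ → QF → ℂ := fun w Q => ∑ x ∈ I.filter (fun x => x.1 = w), c' x * ee Q (lam μ x)
    with hG
  have hFp : ∀ w ∈ F, Int.gcd w.1 w.2 = 1 ∧ (0 < w.2 ∨ w = (1, 0)) ∧ nr ρ w ≤ 2 * A := by
    intro w hw
    obtain ⟨x, hx, rfl⟩ := Finset.mem_image.1 hw
    have h := hI x hx
    refine ⟨h.prim, h.sgn, ?_⟩
    have hf : (1 : ℝ) ≤ (x.2.1.1 : ℝ) := by
      have h1 : x.2.1.1 ≠ 0 := by
        intro h0
        have := h.g
        rw [h0] at this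
        simp at this
      exact_mod_cast Nat.one_le_iff_ne_zero.2 h1
    have hnr : 0 ≤ nr ρ x.1 := by unfold nr; positivity
    have h1 : (x.2.1.1 : ℝ) ^ 2 * nr ρ x.1 ≤ 2 * A := by
      have h2 := h.sh
      have h3 := h.le
      calc (x.2.1.1 : ℝ) ^ 2 * nr ρ x.1 = x.2.1.1 * ((x.2.1.1 : ℝ) * nr ρ x.1) := by ring
        _ ≤ x.2.1.1 * (2 * x.2.2.1) := by gcongr
        _ = 2 * ((x.2.1.1 : ℝ) * x.2.2.1) := by ring
        _ ≤ 2 * A := by gcongr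
    calc nr ρ x.1 = 1 ^ 2 * nr ρ x.1 := by ring
      _ ≤ (x.2.1.1 : ℝ) ^ 2 * nr ρ x.1 := by gcongr
      _ ≤ 2 * A := h1
  obtain ⟨hsd, hdia⟩ := G2 Y ρ A M P p Q₀ F G hY hρ hρY hA hAY hM hP hp hQ₀ hFp
    (fun w _ Q => hdiag w Q)
  have hoff : ∀ θ : ℝ × ℝ × ℝ, _ := fun θ => G1 Y ρ A M P θ I c' μ hY hρ hρY hA hAY hM hI hc'
  rw [← hW] at hsd hdia
  -- total
  set T : QF → ℝ := fun Q => ‖∑ x ∈ I, c' x * ee Q (lam μ x)‖ ^ 2 with hT
  set O : QF → ℂ := fun Q => ∑ x ∈ I, ∑ y ∈ I.filter (fun y => y.1 ≠ x.1),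
        c' x * (starRingEnd ℂ) (c' y) * ee Q (lam μ x - lam μ y) with hO
  set i : QF → ℝ := fun Q => if Cgr p Q Q₀ then 1 else 0 with hi
  have hi0 : ∀ Q, 0 ≤ i Q := fun Q => by
    rw [hi]
    simp only
    split_ifs <;> norm_num
  have hi1 : ∀ Q, i Q ≤ 1 := fun Q => by
    rw [hi]
    simp only
    split_ifs <;> norm_num
  have hTO : ∀ Q, ((T Q : ℝ) : ℂ) = ((∑ w ∈ F, ‖G w Q‖ ^ 2 : ℝ) : ℂ) + O Q := fun Q =>
    expand I c' μ Q
  -- summability of the Gaussian weight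
  have hga : Summable (fun Q : QF => ga W ρ P Q) := (hPN3 W ρ P (0, 0, 0) hWpos hρ0).1
  have hga0 : ∀ Q, 0 ≤ ga W ρ P Q := fun Q => by unfold ga; positivity
  set B : ℝ := ∑ x ∈ I, ‖c' x‖ with hB
  have hTB : ∀ Q, T Q ≤ B ^ 2 := by
    intro Q
    have h1 : ‖∑ x ∈ I, c' x * ee Q (lam μ x)‖ ≤ B := by
      refine (norm_sum_le _ _).trans (Finset.sum_le_sum fun x _ => ?_)
      rw [norm_mul, norm_ee, mul_one]
    exact pow_le_pow_left₀ (norm_nonneg _) h1 2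
  have higa0 : ∀ Q, 0 ≤ i Q * ga W ρ P Q := fun Q => mul_nonneg (hi0 Q) (hga0 Q)
  have hsT : Summable (fun Q => i Q * ga W ρ P Q * T Q) := by
    refine Summable.of_nonneg_of_le (fun Q => mul_nonneg (higa0 Q) (sq_nonneg _)) (fun Q => ?_)
      (hga.mul_right (B ^ 2))
    have h1 : i Q * ga W ρ P Q ≤ ga W ρ P Q := mul_le_of_le_one_left (hga0 Q) (hi1 Q)
    exact mul_le_mul h1 (hTB Q) (sq_nonneg _) (hga0 Q)
  have hsTc : Summable (fun Q => ((i Q * ga W ρ P Q * T Q : ℝ) : ℂ)) :=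
    Complex.summable_ofReal.2 hsT
  have hD : ∀ Q, (if Cgr p Q Q₀ then ga W ρ P Q * ∑ w ∈ F, ‖G w Q‖ ^ 2 else 0) =
      i Q * ga W ρ P Q * ∑ w ∈ F, ‖G w Q‖ ^ 2 := by
    intro Q
    rw [hi]
    simp only
    split_ifs <;> ring
  rw [summable_congr hD] at hsd
  rw [tsum_congr hD] at hdia
  have hsdc : Summable (fun Q => ((i Q * ga W ρ P Q * ∑ w ∈ F, ‖G w Q‖ ^ 2 : ℝ) : ℂ)) :=
    Complex.summable_ofReal.2 hsd
  have hOeq : ∀ Q, ((i Q * ga W ρ P Q : ℝ) : ℂ) * O Q = ((i Q * ga W ρ P Q * T Q : ℝ) : ℂ) -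
      ((i Q * ga W ρ P Q * ∑ w ∈ F, ‖G w Q‖ ^ 2 : ℝ) : ℂ) := by
    intro Q
    have h := hTO Q
    have h' : O Q = ((T Q : ℝ) : ℂ) - ((∑ w ∈ F, ‖G w Q‖ ^ 2 : ℝ) : ℂ) := by
      rw [h]; ring
    rw [h']
    push_cast
    ring
  have hsum : ∑' Q, ((i Q * ga W ρ P Q : ℝ) : ℂ) * O Q =
      ((∑' Q, i Q * ga W ρ P Q * T Q : ℝ) : ℂ) -
      ((∑' Q, i Q * ga W ρ P Q * ∑ w ∈ F, ‖G w Q‖ ^ 2 : ℝ) : ℂ) := by
    rw [tsum_congr hOeq, hsTc.tsum_sub hsdc, ← Complex.ofReal_tsum, ← Complex.ofReal_tsum]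
  -- the off-diagonal terms in the class
  set O' : (ℝ × ℝ × ℝ) → QF → ℂ := fun θ Q => ∑ x ∈ I, ∑ y ∈ I.filter (fun y => y.1 ≠ x.1),
        c' x * (starRingEnd ℂ) (c' y) * ee Q (lam μ x - lam μ y + θ) with hO'
  have hOO : ∀ θ Q, O' θ Q = O Q * ee Q θ := by
    intro θ Q
    rw [hO', hO]
    simp only
    rw [Finset.sum_mul]
    refine Finset.sum_congr rfl fun x _ => ?_
    rw [Finset.sum_mul]
    refine Finset.sum_congr rfl fun y _ => ?_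
    rw [ee_add]
    ring
  have hONb : ∀ Q, ‖O Q‖ ≤ ∑ x ∈ I, ∑ y ∈ I.filter (fun y => y.1 ≠ x.1), ‖c' x‖ * ‖c' y‖ := by
    intro Q
    refine (norm_sum_le _ _).trans (Finset.sum_le_sum fun x _ => ?_)
    refine (norm_sum_le _ _).trans (Finset.sum_le_sum fun y _ => ?_)
    rw [norm_mul, norm_mul, norm_ee, mul_one, RCLike.norm_conj]
  set B2 : ℝ := ∑ x ∈ I, ∑ y ∈ I.filter (fun y => y.1 ≠ x.1), ‖c' x‖ * ‖c' y‖ with hB2
  have hsO : ∀ θ : ℝ × ℝ × ℝ, Summable (fun Q => (ga W ρ P Q : ℂ) * O' θ Q) := by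
    intro θ
    refine Summable.of_norm_bounded (hga.mul_right B2) fun Q => ?_
    rw [norm_mul, hOO, norm_mul, norm_ee, mul_one, Complex.norm_real, Real.norm_eq_abs,
      abs_of_nonneg (hga0 Q)]
    exact mul_le_mul_of_nonneg_left (hONb Q) (hga0 Q)
  have hcl : ∀ Q, ((i Q * ga W ρ P Q : ℝ) : ℂ) * O Q =
      ∑ t ∈ Θ p, (1 / (p : ℂ) ^ 3 * (starRingEnd ℂ) (ee Q₀ (th p t))) *
        ((ga W ρ P Q : ℂ) * O' (th p t) Q) := by
    intro Q
    have h1 : ((i Q : ℝ) : ℂ) = if Cgr p Q Q₀ then (1 : ℂ) else 0 := by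
      rw [hi]
      simp only
      split_ifs <;> simp
    have h2 : ∀ z : ℂ, (1 / (p : ℂ) ^ 3 * ∑ t ∈ Θ p, ee Q (th p t) *
        (starRingEnd ℂ) (ee Q₀ (th p t))) * (ga W ρ P Q : ℂ) * z =
        ∑ t ∈ Θ p, (1 / (p : ℂ) ^ 3 * (starRingEnd ℂ) (ee Q₀ (th p t))) *
          ((ga W ρ P Q : ℂ) * (z * ee Q (th p t))) := by
      intro z
      rw [Finset.mul_sum, Finset.sum_mul, Finset.sum_mul]
      refine Finset.sum_congr rfl fun t _ => ?_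
      ring
    rw [Complex.ofReal_mul, h1, kls_ind p hp1 Q Q₀, h2]
    refine Finset.sum_congr rfl fun t _ => ?_
    rw [hOO]
  have hcard : (Θ p).card = p ^ 3 := by
    unfold Θ
    rw [Finset.card_product, Finset.card_product, Finset.card_range]
    ring
  have hoffc : ‖∑' Q, ((i Q * ga W ρ P Q : ℝ) : ℂ) * O Q‖ ≤ C1 * Y ^ (3 + ε) * ρ * M := by
    rw [tsum_congr hcl, Summable.tsum_finsetSum fun t _ => (hsO (th p t)).mul_left _]
    refine (norm_sum_le _ _).trans ?_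
    have h1 : ∀ t ∈ Θ p, ‖∑' Q, (1 / (p : ℂ) ^ 3 * (starRingEnd ℂ) (ee Q₀ (th p t))) *
        ((ga W ρ P Q : ℂ) * O' (th p t) Q)‖ ≤ 1 / (p : ℝ) ^ 3 * (C1 * Y ^ (3 + ε) * ρ * M) := by
      intro t _
      rw [tsum_mul_left, norm_mul, norm_mul, RCLike.norm_conj, norm_ee, mul_one, norm_div,
        norm_one, norm_pow, Complex.norm_natCast]
      exact mul_le_mul_of_nonneg_left (hoff (th p t)) (by positivity)
    refine (Finset.sum_le_card_nsmul _ _ _ h1).trans (le_of_eq ?_)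
    rw [hcard, nsmul_eq_mul]
    have hp0 : (p : ℝ) ≠ 0 := by
      have : p ≠ 0 := by omega
      exact_mod_cast this
    push_cast
    field_simp
  have htot : ∑' Q, i Q * ga W ρ P Q * T Q ≤
      C2 * Y ^ (3 + ε) * ρ * M + C1 * Y ^ (3 + ε) * ρ * M := by
    have h1 : ‖((∑' Q, i Q * ga W ρ P Q * T Q : ℝ) : ℂ) -
      ((∑' Q, i Q * ga W ρ P Q * ∑ w ∈ F, ‖G w Q‖ ^ 2 : ℝ) : ℂ)‖ ≤
        C1 * Y ^ (3 + ε) * ρ * M := by
      rw [← hsum]; exact hoffc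
    rw [← Complex.ofReal_sub, Complex.norm_real, Real.norm_eq_abs] at h1
    have h2 := (abs_le.1 h1).2
    linarith
  have hS1 : ∀ Q ∈ S, T Q ≤ Real.exp π * (i Q * ga W ρ P Q * T Q) := by
    intro Q hQ
    have h0 : i Q = 1 := by
      rw [hi]
      simp only
      rw [if_pos (hS Q hQ).1]
    have h1 : dq ρ P (rl Q) / W ^ 2 ≤ 1 := by
      rw [div_le_one (by positivity), hW2]
      exact (hS Q hQ).2
    have h2 : (1 : ℝ) ≤ Real.exp π * ga W ρ P Q := by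
      unfold ga
      rw [← Real.exp_add]
      apply Real.one_le_exp
      have h3 : π * dq ρ P (rl Q) / W ^ 2 = π * (dq ρ P (rl Q) / W ^ 2) := by ring
      rw [h3]
      nlinarith [Real.pi_pos]
    calc T Q = 1 * T Q := by ring
      _ ≤ (Real.exp π * ga W ρ P Q) * T Q :=
        mul_le_mul_of_nonneg_right h2 (sq_nonneg _)
      _ = _ := by rw [h0]; ring
  calc ∑ Q ∈ S, ‖∑ n ∈ Sq ⌊A⌋₊, ∑ L ∈ Ls n, c n L * (Rn n L Q : ℂ)‖ ^ 2 = ∑ Q ∈ S, T Q := by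
        refine Finset.sum_congr rfl fun Q _ => ?_
        rw [hexp Q]
    _ ≤ ∑ Q ∈ S, Real.exp π * (i Q * ga W ρ P Q * T Q) := Finset.sum_le_sum hS1
    _ = Real.exp π * ∑ Q ∈ S, i Q * ga W ρ P Q * T Q := by rw [Finset.mul_sum]
    _ ≤ Real.exp π * ∑' Q, i Q * ga W ρ P Q * T Q := by
        gcongr
        exact hsT.sum_le_tsum S (fun Q _ => mul_nonneg (higa0 Q) (sq_nonneg _))
    _ ≤ Real.exp π * (C2 * Y ^ (3 + ε) * ρ * M + C1 * Y ^ (3 + ε) * ρ * M) := by gcongr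
    _ = Real.exp π * (C1 + C2) * Y ^ (3 + ε) * ρ * M := by ring

end Pool.Agent.H94.DF
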